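import Pool.Agent.SC70.Rounded
import Pool.Agent.SC70.Defs

/-!
# MP_eb9223_co: the sausage inequality for locally thick bodies with large surface area

Let `d ≥ 2`, `r > 1`, and let `C ⊂ ℝ^d` be a compact convex set, covered by `k ≥ 1` unit balls,
such that every point of `C` has distance at most `D` from a point `c` with `B(c, r) ⊂ C` (for
`D = r` this says that `C` is a union of balls of radius `r`). Let `F` be the surface area of `C`,
that is the limit of `vol (C \ C_ρ) / ρ` for `ρ → 0`, where `C_ρ` is the set of points `x` with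
`B(x, ρ) ⊂ C`. If `√(e d) (D + 1) vol C ≤ 2 (r - 1) F`, then some convex body `C'` covered by `k`
unit balls with collinear centres satisfies `vol C ≤ vol C'`.
-/

set_option autoImplicit false

open MeasureTheory Topology

namespace Pool.Agent.Results.MP_eb9223_co.SausageRoundedBodies

theorem result : ∀ d : ℕ, 2 ≤ d → ∀ (k : ℕ) (C : Set (EuclideanSpace ℝ (Fin d))) (r D F : ℝ),
    1 ≤ k → SC70.Covered k C → 1 < r →
    (∀ x ∈ C, ∃ c, ‖x - c‖ ≤ D ∧ Metric.closedBall c r ⊆ C) →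
    Filter.Tendsto
      (fun ρ : ℝ => (volume (C \ {x | Metric.closedBall x ρ ⊆ C})).toReal / ρ) (𝓝[>] 0) (𝓝 F) →
    √(Real.exp 1 * d) * (D + 1) * (volume C).toReal ≤ 2 * (r - 1) * F →
    ∃ C' : Set (EuclideanSpace ℝ (Fin d)), SC70.SausageBody k C' ∧ volume C ≤ volume C' := by
  rintro d hd k C r D F hk ⟨hconv, hCc, X, hX, hcov⟩ hr hthick hF hFV
  obtain ⟨n, rfl⟩ : ∃ n, d = n + 1 := ⟨d - 1, by omega⟩
  rcases C.eq_empty_or_nonempty with hCe | ⟨x, hx⟩
  · obtain ⟨C', Y, c1, c2, c3, c4, c5, c6, c7⟩ := SC70.sausage_exists (n := n) (by omega) k hk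
    refine ⟨C', ⟨c1, c2, c3, Y, c4, c5, c6⟩, ?_⟩
    rw [hCe]; simp
  · have hD : 0 ≤ D := by
      obtain ⟨c, hc, _⟩ := hthick x hx
      exact (norm_nonneg _).trans hc
    have hFV' : √(Real.exp 1 * ((n : ℝ) + 1)) * (D + 1) * (volume C).toReal ≤
        2 * (r - 1) * F := by
      have e : ((n + 1 : ℕ) : ℝ) = (n : ℝ) + 1 := by push_cast; ring
      rwa [e] at hFV
    obtain ⟨C', Y, c1, c2, c3, c4, c5, c6, c7⟩ := SC70.rounded_sausage (by omega) C hconv hCc X
      (by omega) hcov r D F hr hD hthick hF hFV'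
    exact ⟨C', ⟨c1, c2, c3, Y, c4.trans hX, c5, c6⟩, c7⟩

end Pool.Agent.Results.MP_eb9223_co.SausageRoundedBodies
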