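import Pool.Agent.SC87.Large

/-!
# MP_eb9223_co: finite coverings by unit balls have density bounded away from one

There is an absolute constant `c > 0` such that in every dimension `d ≥ 5`, whenever `k ≥ 2` unit
balls cover a convex set `C`, the total volume of the balls is at least `(1 + c)` times the volume
of `C`.
-/

set_option autoImplicit false

open MeasureTheory

namespace Pool.Agent.Results.MP_eb9223_co.UniformGap

theorem result : ∃ c : ℝ, 0 < c ∧ ∀ d : ℕ, 5 ≤ d → ∀ k : ℕ, 2 ≤ k →
    ∀ (b : Fin k → EuclideanSpace ℝ (Fin d)) (C : Set (EuclideanSpace ℝ (Fin d))),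
      Convex ℝ C → C ⊆ ⋃ i, Metric.closedBall (b i) 1 →
      ENNReal.ofReal (1 + c) * volume C
        ≤ k * volume (Metric.closedBall (0 : EuclideanSpace ℝ (Fin d)) 1) := by
  obtain ⟨c, hc, h⟩ := SC87.uniform_gap
  refine ⟨c, hc, fun d hd k hk b C hC hcov => ?_⟩
  have h1 := h d hd k hk b C hC hcov
  have hfin : (volume : Measure (EuclideanSpace ℝ (Fin d))) C ≠ ⊤ := by
    have h2 := measure_iUnion_fintype_le (volume : Measure (EuclideanSpace ℝ (Fin d)))
      (fun i => Metric.closedBall (b i) 1)
    have h3 : (volume : Measure (EuclideanSpace ℝ (Fin d))) (⋃ i, Metric.closedBall (b i) 1) ≠ ⊤ :=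
      ne_top_of_le_ne_top (ENNReal.sum_ne_top.mpr fun i _ => SC87.ball_ne_top (b i) 1) h2
    exact ne_top_of_le_ne_top h3 (measure_mono hcov)
  have hb := SC87.ball_ne_top (0 : EuclideanSpace ℝ (Fin d)) 1
  have e1 : ENNReal.ofReal (1 + c) * volume C
      = ENNReal.ofReal ((1 + c) * (volume : Measure (EuclideanSpace ℝ (Fin d))).real C) := by
    rw [ENNReal.ofReal_mul (by linarith), ofReal_measureReal hfin]
  have e2 : (k : ENNReal) * volume (Metric.closedBall (0 : EuclideanSpace ℝ (Fin d)) 1)
      = ENNReal.ofReal (k * (volume : Measure (EuclideanSpace ℝ (Fin d))).real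
        (Metric.closedBall 0 1)) := by
    rw [ENNReal.ofReal_mul (Nat.cast_nonneg k), ofReal_measureReal hb, ENNReal.ofReal_natCast]
  rw [e1, e2]
  exact ENNReal.ofReal_le_ofReal h1

end Pool.Agent.Results.MP_eb9223_co.UniformGap
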